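import Pool.Agent.H11ST.Main
open MeasureTheory Metric Set Filter Topology
open scoped ENNReal NNReal

/-! The Steiner tree of a regular tetrahedron: two branching points in the ball of ratio `t` for
every `t > (√3 - √2) / 3`, in every dimension `d ≥ 3`. -/

namespace H11ST
namespace TET27
set_option linter.unusedSectionVars false

section general
variable {V : Type*} [NormedAddCommGroup V] [InnerProductSpace ℝ V] [MeasurableSpace V]
  [BorelSpace V]

/-- coordinates in three dimensions -/
def w3 (e f g : V) (a b c : ℝ) : V := a • e + b • f + c • g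

/-- an orthonormal triple -/
structure ON (e f g : V) : Prop where
  e1 : ‖e‖ = 1
  f1 : ‖f‖ = 1
  g1 : ‖g‖ = 1
  ef : inner ℝ e f = 0
  eg : inner ℝ e g = 0
  fg : inner ℝ f g = 0

variable {e f g : V}

theorem inner_w3 (h : ON e f g) (a b c a' b' c' : ℝ) :
    inner ℝ (w3 e f g a b c) (w3 e f g a' b' c') = a * a' + b * b' + c * c' := by
  have hfe : inner ℝ f e = 0 := by rw [real_inner_comm]; exact h.ef
  have hge : inner ℝ g e = 0 := by rw [real_inner_comm]; exact h.eg
  have hgf : inner ℝ g f = 0 := by rw [real_inner_comm]; exact h.fg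
  rw [w3, w3]
  simp only [inner_add_left, inner_add_right, inner_smul_left, inner_smul_right,
    real_inner_self_eq_norm_sq, h.e1, h.f1, h.g1, h.ef, h.eg, h.fg, hfe, hge, hgf, conj_trivial]
  ring

theorem norm_w3_sq (h : ON e f g) (a b c : ℝ) :
    ‖w3 e f g a b c‖ ^ 2 = a ^ 2 + b ^ 2 + c ^ 2 := by
  rw [← real_inner_self_eq_norm_sq, inner_w3 h]; ring

theorem norm_w3_one (h : ON e f g) {a b c : ℝ} (h0 : a ^ 2 + b ^ 2 + c ^ 2 = 1) :
    ‖w3 e f g a b c‖ = 1 := by
  have h1 := norm_w3_sq h a b c
  rw [h0] at h1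
  nlinarith [norm_nonneg (w3 e f g a b c)]

theorem w3_add (a b c a' b' c' : ℝ) :
    w3 e f g a b c + w3 e f g a' b' c' = w3 e f g (a + a') (b + b') (c + c') := by
  simp only [w3, add_smul]; abel

theorem w3_smul (s a b c : ℝ) : s • w3 e f g a b c = w3 e f g (s * a) (s * b) (s * c) := by
  simp only [w3, smul_add, smul_smul]

theorem w3_zero : w3 e f g 0 0 0 = 0 := by simp [w3]

theorem dist_w3 (h : ON e f g) {a b c a' b' c' l : ℝ} (hl : 0 ≤ l)
    (h0 : (a - a') ^ 2 + (b - b') ^ 2 + (c - c') ^ 2 = l ^ 2) :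
    dist (w3 e f g a b c) (w3 e f g a' b' c') = l := by
  rw [dist_eq_norm]
  have e1 : w3 e f g a b c - w3 e f g a' b' c' = w3 e f g (a - a') (b - b') (c - c') := by
    simp only [w3, sub_smul]; abel
  rw [e1]
  have h1 := norm_w3_sq h (a - a') (b - b') (c - c')
  rw [h0] at h1
  exact (sq_eq_sq₀ (norm_nonneg _) hl).1 h1

theorem sq2 : √2 * √2 = 2 := Real.mul_self_sqrt (by norm_num)

theorem s2lo : (1.4142 : ℝ) ≤ √2 := by
  rw [Real.le_sqrt' (by norm_num)]; norm_num
theorem s2hi : √2 ≤ (1.4143 : ℝ) := by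
  rw [Real.sqrt_le_left (by norm_num)]; norm_num
theorem s3lo : (1.7320 : ℝ) ≤ √3 := by
  rw [Real.le_sqrt' (by norm_num)]; norm_num
theorem s3hi : √3 ≤ (1.7321 : ℝ) := by
  rw [Real.sqrt_le_left (by norm_num)]; norm_num

/-- corners -/
noncomputable def ta (e f g : V) : V := w3 e f g (-(√2 / 2)) 1 0
noncomputable def tb (e f g : V) : V := w3 e f g (-(√2 / 2)) (-1) 0
noncomputable def tc (e f g : V) : V := w3 e f g (√2 / 2) 0 1
noncomputable def td (e f g : V) : V := w3 e f g (√2 / 2) 0 (-1)
/-- position of the Steiner points -/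
noncomputable def ka : ℝ := √2 / 2 - √3 / 3
noncomputable def tl (e f g : V) : V := w3 e f g (-ka) 0 0
noncomputable def tr (e f g : V) : V := w3 e f g ka 0 0

theorem ka_pos : 0 < ka := by
  have := s2lo
  have := s3hi
  rw [ka]; linarith

theorem ka_lt : ka < 13 / 100 + 1 / 100 := by
  have := s2hi
  have := s3lo
  rw [ka]; linarith

/-- the terminals and the tree -/
def tA (e f g : V) : Set V := {ta e f g, tb e f g, tc e f g, td e f g}
noncomputable def tS (e f g : V) : Set V :=
  segment ℝ (tl e f g) (ta e f g) ∪ segment ℝ (tl e f g) (tb e f g) ∪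
    segment ℝ (tl e f g) (tr e f g) ∪ segment ℝ (tr e f g) (tc e f g) ∪
    segment ℝ (tr e f g) (td e f g)

theorem t_lower [ProperSpace V] (h : ON e f g) {T : Set V} (hT : IsClosed T)
    (hTA : IsConnected (T ∪ tA e f g)) :
    ENNReal.ofReal (√2 + 2 * √3) ≤ μH[1] T := by
  by_cases hfin : μH[1] T = ∞
  · rw [hfin]; exact le_top
  have hAf : (tA e f g).Finite := by rw [tA]; exact toFinite _
  have hX : μH[1] (T ∪ tA e f g) ≤ μH[1] T := by
    refine (measure_union_le _ _).trans ?_
    rw [fin_measure_zero hAf, add_zero]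
  have hXfin : μH[1] (T ∪ tA e f g) ≠ ∞ := ne_top_of_le_ne_top hfin hX
  have ha : ta e f g ∈ T ∪ tA e f g := Or.inr (by simp [tA])
  have hb : tb e f g ∈ T ∪ tA e f g := Or.inr (by simp [tA])
  have hc : tc e f g ∈ T ∪ tA e f g := Or.inr (by simp [tA])
  have hd : td e f g ∈ T ∪ tA e f g := Or.inr (by simp [tA])
  have hcl : IsClosed (T ∪ tA e f g) := hT.union hAf.isClosed
  have hcomp := compact_of_conn hTA.isPreconnected hcl hTA.nonempty hXfin
  have h3 := sq3
  have h2 := sq2
  refine le_trans ?_ hX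
  rw [ENNReal.ofReal_le_iff_le_toReal hXfin]
  refine le_of_forall_pos_le_add fun η hη => ?_
  obtain ⟨U, s, hU, hXU, hs⟩ := exists_chain hcomp hTA.isPreconnected hTA.nonempty hXfin
    (show 0 < η / 3 by linarith)
  have hJ := hU.four _ (hXU ha) _ (hXU hb) _ (hXU hc) _ (hXU hd)
  have e66 : (√2 * √3) * (√2 * √3) = 6 := by
    calc (√2 * √3) * (√2 * √3) = (√2 * √2) * (√3 * √3) := by ring
      _ = 6 := by rw [h2, h3]; norm_num
  have key : √2 + 2 * √3 ≤ s + 2 * (η / 3) := by
    rcases hJ with h' | h' | h'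
    · have := Q_lower h' (ea := w3 e f g (-(1 / 2)) (√3 / 2) 0)
        (eb := w3 e f g (-(1 / 2)) (-(√3 / 2)) 0)
        (ec := w3 e f g (1 / 2) 0 (√3 / 2)) (ed := w3 e f g (1 / 2) 0 (-(√3 / 2)))
        (norm_w3_one h (by nlinarith)).le (norm_w3_one h (by nlinarith)).le
        (norm_w3_one h (by nlinarith)).le (norm_w3_one h (by nlinarith)).le
        (by
          rw [w3_add, w3_add, w3_add, ← w3_zero (e := e) (f := f) (g := g)]
          congr 1 <;> ring)
        (by rw [w3_add]; exact (norm_w3_one h (by nlinarith)).le)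
      simp only [ta, tb, tc, td, inner_w3 h] at this
      linarith
    · have := Q_lower h' (ea := w3 e f g (-(√2 * √3 / 4)) (√2 / 4 + √3 / 4) (√2 / 4 - √3 / 4))
        (eb := w3 e f g (√2 * √3 / 4) (√2 / 4 - √3 / 4) (√2 / 4 + √3 / 4))
        (ec := w3 e f g (-(√2 * √3 / 4)) (-(√2 / 4) - √3 / 4) (-(√2 / 4) + √3 / 4))
        (ed := w3 e f g (√2 * √3 / 4) (-(√2 / 4) + √3 / 4) (-(√2 / 4) - √3 / 4))
        (norm_w3_one h (by nlinarith)).le (norm_w3_one h (by nlinarith)).le
        (norm_w3_one h (by nlinarith)).le (norm_w3_one h (by nlinarith)).le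
        (by
          rw [w3_add, w3_add, w3_add, ← w3_zero (e := e) (f := f) (g := g)]
          congr 1 <;> ring)
        (by rw [w3_add]; exact (norm_w3_one h (by nlinarith)).le)
      simp only [ta, tb, tc, td, inner_w3 h] at this
      have e1 : √2 / 2 * (√2 * √3 / 4) = √3 / 4 := by
        calc √2 / 2 * (√2 * √3 / 4) = (√2 * √2) * √3 / 8 := by ring
          _ = √3 / 4 := by rw [h2]; ring
      nlinarith [e1]
    · have := Q_lower h' (ea := w3 e f g (-(√2 * √3 / 4)) (√2 / 4 + √3 / 4) (-(√2 / 4) + √3 / 4))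
        (eb := w3 e f g (√2 * √3 / 4) (√2 / 4 - √3 / 4) (-(√2 / 4) - √3 / 4))
        (ec := w3 e f g (-(√2 * √3 / 4)) (-(√2 / 4) - √3 / 4) (√2 / 4 - √3 / 4))
        (ed := w3 e f g (√2 * √3 / 4) (-(√2 / 4) + √3 / 4) (√2 / 4 + √3 / 4))
        (norm_w3_one h (by nlinarith)).le (norm_w3_one h (by nlinarith)).le
        (norm_w3_one h (by nlinarith)).le (norm_w3_one h (by nlinarith)).le
        (by
          rw [w3_add, w3_add, w3_add, ← w3_zero (e := e) (f := f) (g := g)]
          congr 1 <;> ring)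
        (by rw [w3_add]; exact (norm_w3_one h (by nlinarith)).le)
      simp only [ta, tb, tc, td, inner_w3 h] at this
      have e1 : √2 / 2 * (√2 * √3 / 4) = √3 / 4 := by
        calc √2 / 2 * (√2 * √3 / 4) = (√2 * √2) * √3 / 8 := by ring
          _ = √3 / 4 := by rw [h2]; ring
      nlinarith [e1]
  linarith

theorem t_len (h : ON e f g) : μH[1] (tS e f g) ≤ ENNReal.ofReal (√2 + 2 * √3) := by
  have h3 := sq3
  have h2 := sq2
  have h3pos : 0 ≤ √3 := Real.sqrt_nonneg 3
  have hk := ka_pos
  have e1 : edist (tl e f g) (ta e f g) = ENNReal.ofReal (2 * √3 / 3) := by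
    rw [edist_dist, tl, ta, dist_w3 h (l := 2 * √3 / 3) (by positivity)]
    rw [ka]; nlinarith
  have e2 : edist (tl e f g) (tb e f g) = ENNReal.ofReal (2 * √3 / 3) := by
    rw [edist_dist, tl, tb, dist_w3 h (l := 2 * √3 / 3) (by positivity)]
    rw [ka]; nlinarith
  have e3 : edist (tl e f g) (tr e f g) = ENNReal.ofReal (2 * ka) := by
    rw [edist_dist, tl, tr, dist_w3 h (l := 2 * ka) (by positivity)]
    ring
  have e4 : edist (tr e f g) (tc e f g) = ENNReal.ofReal (2 * √3 / 3) := by
    rw [edist_dist, tr, tc, dist_w3 h (l := 2 * √3 / 3) (by positivity)]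
    rw [ka]; nlinarith
  have e5 : edist (tr e f g) (td e f g) = ENNReal.ofReal (2 * √3 / 3) := by
    rw [edist_dist, tr, td, dist_w3 h (l := 2 * √3 / 3) (by positivity)]
    rw [ka]; nlinarith
  have hsum : (√2 + 2 * √3) = 2 * √3 / 3 + 2 * √3 / 3 + 2 * ka + 2 * √3 / 3 + 2 * √3 / 3 := by
    rw [ka]; ring
  rw [hsum, ENNReal.ofReal_add (by positivity) (by positivity),
    ENNReal.ofReal_add (by positivity) (by positivity),
    ENNReal.ofReal_add (by positivity) (by positivity),
    ENNReal.ofReal_add (by positivity) (by positivity)]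
  rw [tS]
  refine (measure_union_le _ _).trans (add_le_add ?_ ?_)
  · refine (measure_union_le _ _).trans (add_le_add ?_ ?_)
    · refine (measure_union_le _ _).trans (add_le_add ?_ ?_)
      · refine (measure_union_le _ _).trans (add_le_add ?_ ?_)
        · rw [hausdorffMeasure_segment, e1]
        · rw [hausdorffMeasure_segment, e2]
      · rw [hausdorffMeasure_segment, e3]
    · rw [hausdorffMeasure_segment, e4]
  · rw [hausdorffMeasure_segment, e5]

/-- the directions at the left point -/
noncomputable def dL (e f g : V) : Fin 3 → V :=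
  ![w3 e f g 1 0 0, w3 e f g (-(1 / 2)) (√3 / 2) 0, w3 e f g (-(1 / 2)) (-(√3 / 2)) 0]

/-- the directions at the right point -/
noncomputable def dR (e f g : V) : Fin 3 → V :=
  ![w3 e f g (-1) 0 0, w3 e f g (1 / 2) 0 (√3 / 2), w3 e f g (1 / 2) 0 (-(√3 / 2))]

theorem dL_norm (h : ON e f g) (i : Fin 3) : ‖dL e f g i‖ = 1 := by
  have h3 := sq3
  fin_cases i
  · exact norm_w3_one h (by norm_num)
  · exact norm_w3_one h (by nlinarith)
  · exact norm_w3_one h (by nlinarith)

theorem dR_norm (h : ON e f g) (i : Fin 3) : ‖dR e f g i‖ = 1 := by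
  have h3 := sq3
  fin_cases i
  · exact norm_w3_one h (by norm_num)
  · exact norm_w3_one h (by nlinarith)
  · exact norm_w3_one h (by nlinarith)

theorem dL_ang (h : ON e f g) (i j : Fin 3) (hij : i ≠ j) :
    inner ℝ (dL e f g i) (dL e f g j) = -(1 / 2 : ℝ) := by
  have h3 := sq3
  fin_cases i <;> fin_cases j <;> first
    | exact absurd rfl hij
    | (simp only [dL, Fin.zero_eta, Fin.mk_one, Fin.reduceFinMk, Matrix.cons_val_zero,
        Matrix.cons_val_one, Matrix.cons_val]
       rw [inner_w3 h]; nlinarith)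

theorem dR_ang (h : ON e f g) (i j : Fin 3) (hij : i ≠ j) :
    inner ℝ (dR e f g i) (dR e f g j) = -(1 / 2 : ℝ) := by
  have h3 := sq3
  fin_cases i <;> fin_cases j <;> first
    | exact absurd rfl hij
    | (simp only [dR, Fin.zero_eta, Fin.mk_one, Fin.reduceFinMk, Matrix.cons_val_zero,
        Matrix.cons_val_one, Matrix.cons_val]
       rw [inner_w3 h]; nlinarith)

end general

variable {d : ℕ}

theorem exists_triple (hd : 3 ≤ d) : ∃ e f g : E d, ON e f g := by
  refine ⟨EuclideanSpace.single ⟨0, by omega⟩ 1, EuclideanSpace.single ⟨1, by omega⟩ 1,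
    EuclideanSpace.single ⟨2, by omega⟩ 1, ⟨?_, ?_, ?_, ?_, ?_, ?_⟩⟩
  · simp
  · simp
  · simp
  · rw [EuclideanSpace.inner_single_left]; simp
  · rw [EuclideanSpace.inner_single_left]; simp
  · rw [EuclideanSpace.inner_single_left]; simp

/-- `ka < t r` with `r ^ 2 = 3 / 2` -/
theorem two_le_N_r (hd : 3 ≤ d) {t r : ℝ} (hr : 0 < r) (hr2 : r ^ 2 = 3 / 2) (ht : ka < t * r) :
    2 ≤ N d t := by
  obtain ⟨e, f, g, h⟩ := exists_triple hd
  have hk := ka_pos
  have hk2 := ka_lt
  have h3 := sq3
  have h2 := sq2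
  have h2lo := s2lo
  have h2hi := s2hi
  have h3lo := s3lo
  have h3hi := s3hi
  set S : Set (E d) := tS e f g with hS
  set A : Set (E d) := tA e f g with hA
  set uL : Fin 3 → E d := dL e f g with huL
  set uR : Fin 3 → E d := dR e f g with huR
  set l : Fin 3 → ℝ := ![2 * ka, 2 * √3 / 3, 2 * √3 / 3] with hl
  have hAf : A.Finite := by rw [hA, tA]; exact toFinite _
  have hAS : A ⊆ S := by
    rw [hA, hS, tA, tS]
    rintro z (rfl | rfl | rfl | rfl)
    · exact Or.inl (Or.inl (Or.inl (Or.inl (right_mem_segment ℝ _ _))))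
    · exact Or.inl (Or.inl (Or.inl (Or.inr (right_mem_segment ℝ _ _))))
    · exact Or.inl (Or.inr (right_mem_segment ℝ _ _))
    · exact Or.inr (right_mem_segment ℝ _ _)
  have hSc : IsConnected S := by
    refine ⟨⟨tl e f g, Or.inl (Or.inl (Or.inl (Or.inl (left_mem_segment ℝ _ _))))⟩, ?_⟩
    rw [hS, tS]
    refine IsPreconnected.union (tr e f g) ?_ (left_mem_segment ℝ _ _) ?_
      (convex_segment _ _).isPreconnected
    · exact Or.inr (left_mem_segment ℝ _ _)
    · refine IsPreconnected.union (tr e f g) ?_ (left_mem_segment ℝ _ _) ?_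
        (convex_segment _ _).isPreconnected
      · exact Or.inr (right_mem_segment ℝ _ _)
      · refine IsPreconnected.union (tl e f g) ?_ (left_mem_segment ℝ _ _) ?_
          (convex_segment _ _).isPreconnected
        · exact Or.inr (left_mem_segment ℝ _ _)
        · exact IsPreconnected.union (tl e f g) (left_mem_segment ℝ _ _) (left_mem_segment ℝ _ _)
            (convex_segment _ _).isPreconnected (convex_segment _ _).isPreconnected
  have hScl : IsClosed S := by
    rw [hS, tS]
    exact ((((seg_closed _ _).union (seg_closed _ _)).union (seg_closed _ _)).union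
      (seg_closed _ _)).union (seg_closed _ _)
  have hSA : S ∪ A = S := union_eq_left.2 hAS
  have hadm : Admissible A S 0 r :=
    { compact := hAf.isCompact
      steiner := ⟨hScl, by rw [hSA]; exact hSc, fun T hT hTA =>
        (t_len h).trans (t_lower h hT hTA)⟩
      tree := hSc
      rpos := hr
      far := by
        rw [eq_empty_iff_forall_notMem]
        have key : ∀ a b c : ℝ, a ^ 2 + b ^ 2 + c ^ 2 = 3 / 2 →
            w3 e f g a b c ∉ ball (0 : E d) r := by
          intro a b c hab hz
          rw [mem_ball, dist_zero_right] at hz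
          have h4 := norm_w3_sq h a b c
          rw [hab] at h4
          nlinarith [norm_nonneg (w3 e f g a b c)]
        rintro z ⟨hz, hzb⟩
        rw [hA, tA] at hz
        rcases hz with rfl | rfl | rfl | rfl
        · exact key _ _ _ (by nlinarith) hzb
        · exact key _ _ _ (by nlinarith) hzb
        · exact key _ _ _ (by nlinarith) hzb
        · exact key _ _ _ (by nlinarith) hzb
      finite := lt_of_le_of_lt (t_len h) ENNReal.ofReal_lt_top }
  refine le_N hadm ?_
  -- the first coordinate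
  have coord : ∀ a b c : ℝ, inner ℝ e (w3 e f g a b c) = a := by
    intro a b c
    have h4 := inner_w3 h 1 0 0 a b c
    have h5 : w3 e f g 1 0 0 = e := by simp [w3]
    rw [h5] at h4; linarith
  have coord_seg : ∀ (p q : E d) (c : ℝ), c ≤ inner ℝ e p → c ≤ inner ℝ e q → ∀ z ∈ segment ℝ p q,
      c ≤ inner ℝ e z := by
    intro p q c hp hq z hz
    rw [segment_eq_image] at hz
    obtain ⟨θ, ⟨h0, h1⟩, rfl⟩ := hz
    simp only [inner_add_right, inner_smul_right]
    nlinarith
  have coord_seg' : ∀ (p q : E d) (c : ℝ), inner ℝ e p ≤ c → inner ℝ e q ≤ c → ∀ z ∈ segment ℝ p q,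
      inner ℝ e z ≤ c := by
    intro p q c hp hq z hz
    rw [segment_eq_image] at hz
    obtain ⟨θ, ⟨h0, h1⟩, rfl⟩ := hz
    simp only [inner_add_right, inner_smul_right]
    nlinarith
  have ball_coord : ∀ (p z : E d) (ε : ℝ), z ∈ ball p ε → |inner ℝ e z - inner ℝ e p| < ε := by
    intro p z ε hz
    rw [mem_ball, dist_eq_norm] at hz
    rw [← inner_sub_right]
    have h4 := abs_real_inner_le_norm e (z - p)
    rw [h.e1, one_mul] at h4
    linarith
  have e1 : tl e f g + (2 * ka) • w3 e f g 1 0 0 = tr e f g := by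
    rw [tl, tr, w3_smul, w3_add]; congr 1 <;> ring
  have e2 : tl e f g + (2 * √3 / 3) • w3 e f g (-(1 / 2)) (√3 / 2) 0 = ta e f g := by
    rw [tl, ta, w3_smul, w3_add]; congr 1
    · rw [ka]; ring
    · nlinarith
    · ring
  have e3 : tl e f g + (2 * √3 / 3) • w3 e f g (-(1 / 2)) (-(√3 / 2)) 0 = tb e f g := by
    rw [tl, tb, w3_smul, w3_add]; congr 1
    · rw [ka]; ring
    · nlinarith
    · ring
  have e4 : tr e f g + (2 * ka) • w3 e f g (-1) 0 0 = tl e f g := by
    rw [tl, tr, w3_smul, w3_add]; congr 1 <;> ring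
  have e5 : tr e f g + (2 * √3 / 3) • w3 e f g (1 / 2) 0 (√3 / 2) = tc e f g := by
    rw [tr, tc, w3_smul, w3_add]; congr 1
    · rw [ka]; ring
    · ring
    · nlinarith
  have e6 : tr e f g + (2 * √3 / 3) • w3 e f g (1 / 2) 0 (-(√3 / 2)) = td e f g := by
    rw [tr, td, w3_smul, w3_add]; congr 1
    · rw [ka]; ring
    · ring
    · nlinarith
  have hlk : ∀ i, ka ≤ l i := by
    intro i
    fin_cases i
    · simp [hl]; linarith
    · simp [hl]; linarith
    · simp [hl]; linarith
  have f0 : tl e f g + l 0 • uL 0 = tr e f g := e1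
  have f1 : tl e f g + l 1 • uL 1 = ta e f g := e2
  have f2 : tl e f g + l 2 • uL 2 = tb e f g := e3
  have g0 : tr e f g + l 0 • uR 0 = tl e f g := e4
  have g1 : tr e f g + l 1 • uR 1 = tc e f g := e5
  have g2 : tr e f g + l 2 • uR 2 = td e f g := e6
  have TL : Tri S (tl e f g) uL ka := by
    refine tri_of_segments (l := l)
      (R := segment ℝ (tr e f g) (tc e f g) ∪ segment ℝ (tr e f g) (td e f g)) hk
      (dL_norm h) (dL_ang h) hlk ?_ ?_
    · rw [hS, tS]
      ext z
      simp only [mem_union, mem_iUnion]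
      constructor
      · rintro ((((h' | h') | h') | h') | h')
        · exact Or.inl ⟨1, by rw [f1]; exact h'⟩
        · exact Or.inl ⟨2, by rw [f2]; exact h'⟩
        · exact Or.inl ⟨0, by rw [f0]; exact h'⟩
        · exact Or.inr (Or.inl h')
        · exact Or.inr (Or.inr h')
      · rintro (⟨i, h'⟩ | h' | h')
        · match i, h' with
          | 0, h' => exact Or.inl (Or.inl (Or.inr (by rw [f0] at h'; exact h')))
          | 1, h' => exact Or.inl (Or.inl (Or.inl (Or.inl (by rw [f1] at h'; exact h'))))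
          | 2, h' => exact Or.inl (Or.inl (Or.inl (Or.inr (by rw [f2] at h'; exact h'))))
        · exact Or.inl (Or.inr h')
        · exact Or.inr h'
    · intro z hz hb
      have h4 := ball_coord _ _ _ hb
      rw [tl, coord, abs_lt] at h4
      have h5 : ka ≤ inner ℝ e z := by
        rcases hz with hz | hz
        · exact coord_seg _ _ ka (by rw [tr, coord]) (by rw [tc, coord]; linarith) z hz
        · exact coord_seg _ _ ka (by rw [tr, coord]) (by rw [td, coord]; linarith) z hz
      linarith [h4.2]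
  have TR : Tri S (tr e f g) uR ka := by
    refine tri_of_segments (l := l)
      (R := segment ℝ (tl e f g) (ta e f g) ∪ segment ℝ (tl e f g) (tb e f g)) hk
      (dR_norm h) (dR_ang h) hlk ?_ ?_
    · rw [hS, tS]
      ext z
      simp only [mem_union, mem_iUnion]
      constructor
      · rintro ((((h' | h') | h') | h') | h')
        · exact Or.inr (Or.inl h')
        · exact Or.inr (Or.inr h')
        · exact Or.inl ⟨0, by rw [g0, segment_symm]; exact h'⟩
        · exact Or.inl ⟨1, by rw [g1]; exact h'⟩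
        · exact Or.inl ⟨2, by rw [g2]; exact h'⟩
      · rintro (⟨i, h'⟩ | h' | h')
        · match i, h' with
          | 0, h' => exact Or.inl (Or.inl (Or.inr (by rw [g0, segment_symm] at h'; exact h')))
          | 1, h' => exact Or.inl (Or.inr (by rw [g1] at h'; exact h'))
          | 2, h' => exact Or.inr (by rw [g2] at h'; exact h')
        · exact Or.inl (Or.inl (Or.inl (Or.inl h')))
        · exact Or.inl (Or.inl (Or.inl (Or.inr h')))
    · intro z hz hb
      have h4 := ball_coord _ _ _ hb
      rw [tr, coord, abs_lt] at h4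
      have h5 : inner ℝ e z ≤ -ka := by
        rcases hz with hz | hz
        · exact coord_seg' _ _ (-ka) (by rw [tl, coord]) (by rw [ta, coord]; linarith) z hz
        · exact coord_seg' _ _ (-ka) (by rw [tl, coord]) (by rw [tb, coord]; linarith) z hz
      linarith [h4.1]
  have hball : ∀ c : ℝ, |c| = ka → w3 e f g c 0 0 ∈ ball (0 : E d) (t * r) := by
    intro c hc
    rw [mem_ball, dist_zero_right]
    have h4 := norm_w3_sq h c 0 0
    have h5 : ‖w3 e f g c 0 0‖ = ka := by
      rw [← hc]
      rw [← sq_eq_sq₀ (norm_nonneg _) (abs_nonneg _), h4, sq_abs]; ring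
    rw [h5]
    exact ht
  have notA : ∀ c : ℝ, |c| = ka → w3 e f g c 0 0 ∉ A := by
    intro c hc h'
    have hc1 : c ≠ -(√2 / 2) := by
      rintro rfl
      rw [abs_neg, abs_of_nonneg (by positivity)] at hc
      linarith
    have hc2 : c ≠ √2 / 2 := by
      rintro rfl
      rw [abs_of_nonneg (by positivity)] at hc
      linarith
    rw [hA, tA] at h'
    rcases h' with h' | h' | h' | h'
    · have := congrArg (fun v => inner ℝ e v) h'
      simp only [ta, coord] at this; exact hc1 this
    · have := congrArg (fun v => inner ℝ e v) h'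
      simp only [tb, coord] at this; exact hc1 this
    · have := congrArg (fun v => inner ℝ e v) h'
      simp only [tc, coord] at this; exact hc2 this
    · have := congrArg (fun v => inner ℝ e v) h'
      simp only [td, coord] at this; exact hc2 this
  have hneg : |-ka| = ka := by rw [abs_neg, abs_of_pos hk]
  have hpos : |ka| = ka := abs_of_pos hk
  have hLR : tl e f g ≠ tr e f g := by
    intro h'
    have := congrArg (fun v => inner ℝ e v) h'
    simp only [tl, tr, coord] at this
    linarith
  have hsub : ({tl e f g, tr e f g} : Set (E d)) ⊆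
      {y ∈ ball (0 : E d) (t * r) | IsBranchingPoint A S y} := by
    rintro z (rfl | rfl)
    · exact ⟨hball _ hneg, notA _ hneg, uL, ka, TL.pos, TL.norm, TL.ang, TL.eq⟩
    · exact ⟨hball _ hpos, notA _ hpos, uR, ka, TR.pos, TR.norm, TR.ang, TR.eq⟩
  calc (2 : ℕ∞) = ({tl e f g, tr e f g} : Set (E d)).encard := (Set.encard_pair hLR).symm
    _ ≤ _ := Set.encard_le_encard hsub

/-- for `d ≥ 3` and `t > (√3 - √2) / 3` there are two branching points (regular tetrahedron) -/
theorem two_le_N_tet (hd : 3 ≤ d) {t : ℝ} (ht : (√3 - √2) / 3 < t) : 2 ≤ N d t := by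
  have h3 := sq3
  have h2 := sq2
  have p2 : 0 < √2 := by positivity
  have p3 : 0 < √3 := by positivity
  refine two_le_N_r hd (r := √2 * √3 / 2) (by positivity) ?_ ?_
  · calc (√2 * √3 / 2) ^ 2 = (√2 * √2) * (√3 * √3) / 4 := by ring
      _ = 3 / 2 := by rw [h2, h3]; norm_num
  · have e0 : ka = (√3 - √2) / 3 * (√2 * √3 / 2) := by
      calc ka = √2 * 3 / 6 - 2 * √3 / 6 := by rw [ka]; ring
        _ = √2 * (√3 * √3) / 6 - (√2 * √2) * √3 / 6 := by rw [h2, h3]
        _ = _ := by ring
    rw [e0]
    exact mul_lt_mul_of_pos_right ht (by positivity)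

end TET27
end H11ST
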